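import Mathlib

set_option autoImplicit false

namespace Pool.Agent.Results.MP_d086ed_co.VisualHullNotUnion

open Set

/-- Euclidean space of dimension `n`. -/
abbrev E (n : ℕ) := EuclideanSpace ℝ (Fin n)

/-- `A` and `B` have the same image under the orthogonal projection onto every
one-dimensional linear subspace. -/
def PEquiv {n : ℕ} (A B : Set (E n)) : Prop :=
  ∀ L : Submodule ℝ (E n), Module.finrank ℝ L = 1 → L.starProjection '' A = L.starProjection '' B

/-- The visual hull of `S`: the union of all sets `B` equivalent to `S`. -/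
def visualHull {n : ℕ} (S : Set (E n)) : Set (E n) := ⋃₀ {B | PEquiv B S}

lemma hull_meets {n : ℕ} {S : Set (E n)} {x : E n} (hx : x ∈ visualHull S) (v : E n)
    (hv : v ≠ 0) : ∃ s ∈ S, inner ℝ v s = inner ℝ v x := by
  obtain ⟨B, hB, hxB⟩ := hx
  have h1 := hB (Submodule.span ℝ {v}) (finrank_span_singleton hv)
  have h2 : (Submodule.span ℝ {v}).starProjection x ∈ (Submodule.span ℝ {v}).starProjection '' S := by
    rw [← h1]; exact ⟨x, hxB, rfl⟩
  obtain ⟨s, hs, hsx⟩ := h2
  refine ⟨s, hs, ?_⟩
  have h3 := congrArg (fun z => inner ℝ v z) hsx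
  simp only [Submodule.starProjection_singleton, inner_smul_right, real_inner_self_eq_norm_sq] at h3
  have hn : ‖v‖ ≠ 0 := norm_ne_zero_iff.mpr hv
  have hn2 : ‖v‖ ^ 2 ≠ 0 := pow_ne_zero 2 hn
  simpa [hn2, hn] using h3

lemma mem_hull {n : ℕ} {S : Set (E n)} {x : E n}
    (h : ∀ v : E n, v ≠ 0 → ∃ s ∈ S, inner ℝ v s = inner ℝ v x) : x ∈ visualHull S := by
  refine ⟨insert x S, ?_, mem_insert x S⟩
  intro L hL
  rw [image_insert_eq]
  apply insert_eq_of_mem
  obtain ⟨v, hv0, hv⟩ := finrank_eq_one_iff'.mp hL
  have hv0' : (v : E n) ≠ 0 := by simpa using hv0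
  have hspan : L = Submodule.span ℝ {(v : E n)} := by
    apply le_antisymm
    · intro w hw
      obtain ⟨c, hc⟩ := hv ⟨w, hw⟩
      rw [Submodule.mem_span_singleton]
      exact ⟨c, by simpa using congrArg Subtype.val hc⟩
    · rw [Submodule.span_singleton_le_iff_mem]; exact v.2
  obtain ⟨s, hs, hsx⟩ := h v hv0'
  refine ⟨s, hs, ?_⟩
  rw [hspan, Submodule.starProjection_singleton, Submodule.starProjection_singleton, hsx]

/-- the three special indices -/
def nxt {n : ℕ} (a b c i : Fin n) : Fin n := if i = a then c else if i = b then a else b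

/-- The pieces: three segments and `n - 3` points. -/
noncomputable def piece {n : ℕ} (a b c : Fin n) (i : Fin n) : Set (E n) :=
  if i = a ∨ i = b ∨ i = c then
    segment ℝ (EuclideanSpace.single i (1 : ℝ)) (-(EuclideanSpace.single (nxt a b c i) (1 : ℝ)))
  else {EuclideanSpace.single i (1 : ℝ)}

/-- The separating functional. -/
noncomputable def func {n : ℕ} (a b c : Fin n) (i : Fin n) : E n :=
  EuclideanSpace.single i (1 : ℝ) -
    (if i = a ∨ i = b ∨ i = c then EuclideanSpace.single (nxt a b c i) (1 : ℝ) else 0)

lemma inner_func {n : ℕ} (a b c i : Fin n) (x : E n) :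
    inner ℝ (func a b c i) x = x i - (if i = a ∨ i = b ∨ i = c then x (nxt a b c i) else 0) := by
  unfold func
  rw [inner_sub_left]
  split_ifs <;> simp [EuclideanSpace.inner_single_left]

lemma mem_seg {n : ℕ} {p q : Fin n} {x : E n}
    (hx : x ∈ segment ℝ (EuclideanSpace.single p (1 : ℝ)) (-(EuclideanSpace.single q (1 : ℝ)))) :
    ∃ t : ℝ, 0 ≤ t ∧ t ≤ 1 ∧ ∀ j, x j = (1 - t) * (if j = p then 1 else 0) -
      t * (if j = q then 1 else 0) := by
  obtain ⟨s, t, hs, ht, hst, rfl⟩ := hx
  refine ⟨t, ht, by linarith, fun j => ?_⟩
  have : s = 1 - t := by linarith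
  subst this
  simp
  split_ifs <;> ring

lemma func_own {n : ℕ} {a b c : Fin n} (hab : a ≠ b) (hac : a ≠ c) (hbc : b ≠ c) (i : Fin n)
    {x : E n} (hx : x ∈ piece a b c i) : inner ℝ (func a b c i) x = 1 := by
  rw [inner_func]
  unfold piece at hx
  by_cases h : i = a ∨ i = b ∨ i = c
  · rw [if_pos h] at hx ⊢
    obtain ⟨t, h0, h1, hx⟩ := mem_seg hx
    have hne : nxt a b c i ≠ i := by
      unfold nxt
      rcases h with rfl | rfl | rfl
      · simp [hac.symm]
      · simp [hab, hab.symm]
      · simp [hac.symm, hbc.symm, hbc]
    rw [hx, hx, if_pos rfl, if_pos rfl, if_neg hne, if_neg hne.symm]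
    ring
  · rw [if_neg h] at hx ⊢
    rw [mem_singleton_iff] at hx
    subst hx
    simp

lemma func_other {n : ℕ} {a b c : Fin n} (hab : a ≠ b) (hac : a ≠ c) (hbc : b ≠ c) (i k : Fin n)
    (hik : k ≠ i) {x : E n} (hx : x ∈ piece a b c k) : inner ℝ (func a b c i) x ≤ 0 := by
  rw [inner_func]
  unfold piece at hx
  by_cases hk : k = a ∨ k = b ∨ k = c
  · rw [if_pos hk] at hx
    obtain ⟨t, h0, h1, hx⟩ := mem_seg hx
    rw [hx, if_neg hik.symm]
    by_cases h : i = a ∨ i = b ∨ i = c
    · rw [if_pos h, hx]
      have hne : nxt a b c i ≠ nxt a b c k := by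
        unfold nxt
        rcases h with rfl | rfl | rfl <;> rcases hk with rfl | rfl | rfl <;>
          first
          | exact absurd rfl hik
          | simp [hab, hac, hbc, hab.symm, hac.symm, hbc.symm]
      rw [if_neg hne]
      split_ifs <;> nlinarith
    · rw [if_neg h]
      split_ifs <;> nlinarith
  · rw [if_neg hk, mem_singleton_iff] at hx
    subst hx
    by_cases h : i = a ∨ i = b ∨ i = c
    · rw [if_pos h]
      have hne : nxt a b c i ≠ k := by
        intro h2
        apply hk
        unfold nxt at h2
        split_ifs at h2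
        · exact Or.inr (Or.inr h2.symm)
        · exact Or.inl h2.symm
        · exact Or.inr (Or.inl h2.symm)
      simp [hik.symm, hne]
    · rw [if_neg h]
      simp [hik.symm]

lemma single_mem_piece {n : ℕ} (a b c k : Fin n) :
    (EuclideanSpace.single k (1 : ℝ) : E n) ∈ piece a b c k := by
  unfold piece
  split_ifs
  · exact left_mem_segment ℝ _ _
  · exact mem_singleton _

lemma zero_mem_hull {n : ℕ} {a b c : Fin n} (hab : a ≠ b) (hac : a ≠ c) (hbc : b ≠ c) :
    (0 : E n) ∈ visualHull (⋃ i, piece a b c i) := by
  apply mem_hull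
  intro v _
  have key : ∀ i k : Fin n, piece a b c i =
      segment ℝ (EuclideanSpace.single i (1 : ℝ)) (-(EuclideanSpace.single k (1 : ℝ))) →
      0 ≤ v i * v k → ∃ s ∈ (⋃ i, piece a b c i), inner ℝ v s = inner ℝ v (0 : E n) := by
    intro i k hp hv
    by_cases h0 : v i + v k = 0
    · refine ⟨EuclideanSpace.single i (1 : ℝ), mem_iUnion.mpr ⟨i, single_mem_piece a b c i⟩, ?_⟩
      have : v i = 0 := by nlinarith
      simp [EuclideanSpace.inner_single_right, this]
    · have hpos : 0 ≤ v i / (v i + v k) ∧ 0 ≤ v k / (v i + v k) := by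
        constructor
        · rw [div_nonneg_iff]
          rcases le_total 0 (v i) with h | h
          · rcases le_total 0 (v k) with h' | h'
            · left; constructor <;> linarith
            · rcases eq_or_lt_of_le h with h2 | h2
              · right; constructor <;> linarith
              · have : v k = 0 := by nlinarith
                left; constructor <;> linarith
          · rcases le_total 0 (v k) with h' | h'
            · rcases eq_or_lt_of_le h with h2 | h2
              · left; constructor <;> linarith
              · have : v k = 0 := by nlinarith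
                right; constructor <;> linarith
            · right; constructor <;> linarith
        · rw [div_nonneg_iff]
          rcases le_total 0 (v i) with h | h
          · rcases le_total 0 (v k) with h' | h'
            · left; constructor <;> linarith
            · rcases eq_or_lt_of_le h' with h2 | h2
              · left; constructor <;> linarith
              · have : v i = 0 := by nlinarith
                right; constructor <;> linarith
          · rcases le_total 0 (v k) with h' | h'
            · rcases eq_or_lt_of_le h' with h2 | h2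
              · right; constructor <;> linarith
              · have : v i = 0 := by nlinarith
                left; constructor <;> linarith
            · right; constructor <;> linarith
      refine ⟨(v k / (v i + v k)) • EuclideanSpace.single i (1 : ℝ) +
        (v i / (v i + v k)) • (-(EuclideanSpace.single k (1 : ℝ))), mem_iUnion.mpr ⟨i, ?_⟩, ?_⟩
      · rw [hp]
        exact ⟨_, _, hpos.2, hpos.1, by field_simp; ring, rfl⟩
      · rw [inner_add_right, inner_smul_right, inner_smul_right, inner_neg_right]
        simp [EuclideanSpace.inner_single_right]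
        field_simp
        ring
  have pa : piece a b c a =
      segment ℝ (EuclideanSpace.single a (1 : ℝ)) (-(EuclideanSpace.single c (1 : ℝ))) := by
    simp [piece, nxt]
  have pb : piece a b c b =
      segment ℝ (EuclideanSpace.single b (1 : ℝ)) (-(EuclideanSpace.single a (1 : ℝ))) := by
    simp [piece, nxt, hab.symm]
  have pc : piece a b c c =
      segment ℝ (EuclideanSpace.single c (1 : ℝ)) (-(EuclideanSpace.single b (1 : ℝ))) := by
    simp [piece, nxt, hac.symm, hbc.symm]
  by_cases h1 : 0 ≤ v a * v c
  · exact key a c pa h1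
  · by_cases h2 : 0 ≤ v b * v a
    · exact key b a pb h2
    · apply key c b pc
      push Not at h1 h2
      by_contra h3
      push Not at h3
      have h4 : 0 < (v a * v c) * (v b * v a) := mul_pos_of_neg_of_neg h1 h2
      nlinarith [mul_pos_of_neg_of_neg h1 h2, mul_self_nonneg (v a), mul_self_nonneg (v a * v b * v c)]

/-- For every `n ≥ 3` there are `n` nonempty pairwise disjoint compact convex sets in
`n`-dimensional Euclidean space such that the visual hull of their union is not a union of
`n` convex sets. -/
theorem result (n : ℕ) (hn : 3 ≤ n) :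
    ∃ A : Fin n → Set (E n), (∀ i, (A i).Nonempty) ∧ (∀ i, Convex ℝ (A i)) ∧
      (∀ i, IsCompact (A i)) ∧ (Pairwise fun i j => Disjoint (A i) (A j)) ∧
      ¬ ∃ C : Fin n → Set (E n), (∀ i, Convex ℝ (C i)) ∧
        visualHull (⋃ i, A i) = ⋃ i, C i := by
  obtain ⟨a, b, c, hab, hac, hbc⟩ : ∃ a b c : Fin n, a ≠ b ∧ a ≠ c ∧ b ≠ c :=
    ⟨⟨0, by omega⟩, ⟨1, by omega⟩, ⟨2, by omega⟩, by simp, by simp, by simp⟩
  refine ⟨piece a b c, fun i => ⟨_, single_mem_piece a b c i⟩, ?_, ?_, ?_, ?_⟩
  · intro i
    unfold piece
    split_ifs
    · exact convex_segment _ _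
    · exact convex_singleton _
  · intro i
    unfold piece
    split_ifs
    · rw [segment_eq_image_lineMap]
      exact isCompact_Icc.image (by fun_prop)
    · exact isCompact_singleton
  · intro i j hij
    rw [Set.disjoint_left]
    intro x hx hy
    have h1 := func_own hab hac hbc i hx
    have h2 := func_other hab hac hbc i j hij.symm hy
    linarith
  · rintro ⟨C, hC, hCU⟩
    -- the points
    let p : Option (Fin n) → E n := fun o => o.elim 0 (fun i => EuclideanSpace.single i (1 : ℝ))
    have hp : ∀ o, p o ∈ ⋃ i, C i := by
      intro o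
      rw [← hCU]
      cases o with
      | none => exact zero_mem_hull hab hac hbc
      | some i =>
        exact mem_hull (fun v _ => ⟨_, mem_iUnion.mpr ⟨i, single_mem_piece a b c i⟩, rfl⟩)
    choose f hf using fun o => mem_iUnion.mp (hp o)
    -- pigeonhole
    obtain ⟨o₁, o₂, hne, hff⟩ := Fintype.exists_ne_map_eq_of_card_lt f (by simp)
    -- separation
    have sep : ∀ (i : Fin n) (x y : E n) (k : Fin n), x ∈ C k → y ∈ C k →
        inner ℝ (func a b c i) x = 1 → inner ℝ (func a b c i) y ≤ 0 → False := by
      intro i x y k hx hy h1 h2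
      set β := inner ℝ (func a b c i) y with hβ
      -- point on the segment with value 1/2
      have hz : ((1 / 2 - β) / (1 - β)) • x + ((1 / 2) / (1 - β)) • y ∈ C k := by
        have hpos : 0 < 1 - β := by linarith
        apply hC k hx hy
        · apply div_nonneg <;> linarith
        · apply div_nonneg <;> linarith
        · field_simp; ring
      have hz2 := mem_iUnion.mpr ⟨k, hz⟩
      rw [← hCU] at hz2
      have hfne : func a b c i ≠ 0 := by
        intro h0
        rw [h0] at h1
        simp at h1
      obtain ⟨s, hs, hsz⟩ := hull_meets hz2 (func a b c i) hfne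
      rw [inner_add_right, inner_smul_right, inner_smul_right, h1, ← hβ] at hsz
      have hval : (1 / 2 - β) / (1 - β) * 1 + 1 / 2 / (1 - β) * β = 1 / 2 := by
        have hpos : 1 - β ≠ 0 := by linarith
        field_simp
        ring
      rw [hval] at hsz
      obtain ⟨j, hj⟩ := mem_iUnion.mp hs
      by_cases hji : j = i
      · subst hji
        have := func_own hab hac hbc j hj
        linarith
      · have := func_other hab hac hbc i j hji hj
        linarith
    have own : ∀ i : Fin n, inner ℝ (func a b c i) (p (some i)) = 1 := fun i =>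
      func_own hab hac hbc i (single_mem_piece a b c i)
    have oth : ∀ (i : Fin n) (o : Option (Fin n)), o ≠ some i →
        inner ℝ (func a b c i) (p o) ≤ 0 := by
      intro i o ho
      cases o with
      | none => simp [p]
      | some k =>
        exact func_other hab hac hbc i k (fun h => ho (by rw [h])) (single_mem_piece a b c k)
    have h1 := hf o₁
    have h2 := hf o₂
    rw [← hff] at h2
    cases o₁ with
    | none =>
      cases o₂ with
      | none => exact hne rfl
      | some i => exact sep i _ _ _ h2 h1 (own i) (oth i none (by simp))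
    | some i => exact sep i _ _ _ h1 h2 (own i) (oth i o₂ hne.symm)

end Pool.Agent.Results.MP_d086ed_co.VisualHullNotUnion
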